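import Pool.Agent.Helper86.Poly.Defs

/-! # MP_cd13d2_co : packets. Every packet is a `def G_... : Prop`; prove `theorem thm : G_...`
(with the hypotheses named in the docstring, for example `theorem thm (h : G_X) : G_BV`).
`E d = EuclideanSpace ℝ (Fin d)`; the definitions are in `Defs.lean`. -/

set_option autoImplicit false

namespace Pool.Agent.Helper86.Poly

open MeasureTheory Set

/-! ## Part F: few vertices -/

/-- G_X. For a measurable nonnegative positively homogeneous `Γ` on `κ → ℝ`, `m = card κ`,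
`∫ exp(-Γ) = m! vol {Γ ≤ 1}` (in `ENNReal`, also when infinite).
Proof. `ofReal (exp (-Γ x)) = ∫⁻ t in Ioi 0, indicator {t | Γ x ≤ t} (ofReal (exp (-t)))`, since `Γ x ≥ 0` and
`∫_u^∞ exp(-t) dt = exp(-u)`. Tonelli (`lintegral_lintegral_swap`):
`LHS = ∫⁻ t in Ioi 0, ofReal (exp (-t)) * vol {Γ ≤ t}`. For `t > 0`, `{Γ ≤ t} = t • {Γ ≤ 1}`
(homogeneity), so its volume is `ofReal (t ^ m) * vol {Γ ≤ 1}` (`Measure.addHaar_smul`, finrank `m`).
Finally `∫_0^∞ t^m exp(-t) dt = Γ(m+1) = m!` (`Real.Gamma_eq_integral`,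
`Real.Gamma_nat_eq_factorial`, or `integral_rpow_mul_exp_neg_mul_Ioi`). -/
def G_X : Prop := ∀ (κ : Type) [Fintype κ] (Γ : (κ → ℝ) → ℝ), Measurable Γ → (∀ x, 0 ≤ Γ x) →
  (∀ (t : ℝ) (x : κ → ℝ), 0 < t → Γ (t • x) = t * Γ x) →
  ∫⁻ x, ENNReal.ofReal (Real.exp (-(Γ x))) =
    ((Fintype.card κ).factorial : ENNReal) * volume {x | Γ x ≤ 1}

/-- The gauge of the blow-up: `Γ x = G h + g Q (y - τ h)`, where `x = (y, h)`, `G h = ∑ i, g (S i) (h i)`,
`τ h = ∑ i, g (S i) (h i) • c i`, `Q = convexHull (range c)`, `S i = convexHull (range (s i))`, `g = gauge`. -/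
noncomputable def Gm {ι : Type} [Fintype ι] {a : ℕ} {b : ι → ℕ} (c : ι → Fin a → ℝ)
    (s : (i : ι) → Fin (b i + 1) → Fin (b i) → ℝ) (x : (Fin a ⊕ (Σ i, Fin (b i))) → ℝ) : ℝ :=
  (∑ i, gauge (convexHull ℝ (range (s i))) (fun j => x (Sum.inr ⟨i, j⟩))) +
    gauge (convexHull ℝ (range c)) (fun j => x (Sum.inl j) -
      ∑ i, gauge (convexHull ℝ (range (s i))) (fun j => x (Sum.inr ⟨i, j⟩)) * c i j)

/-- G_BV1: the blow-up is the unit ball of its gauge (no measure theory).
All spaces are Pi spaces. `pt c s ⟨i, α⟩` has the `A`-part `c i`, and in the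
block `i` the vector `s i α` (zeros in the other blocks). Write `Q = convexHull (range c)`,
`S i = convexHull (range (s i))`, `P = convexHull (range (pt c s))`.
Proof. `Q` and all `S i` are compact convex with `0` in the interior
(`Set.Finite.isCompact_convexHull`), so the gauges are continuous
(`continuous_gauge`), subadditive, positively homogeneous, `K = {g K ≤ 1}`
(`gauge_le_one_iff_mem_closure`), and `x ∈ t • K` for `t ≥ g K x`, `t > 0`; if `g K x = 0` then `x = 0`
(`gauge_eq_zero`, bounded).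
`⊆`: a point `x = (y, h)` of `P` is `∑ μ_{iα} pt ⟨i, α⟩` with weights `μ ≥ 0`, `∑ μ = 1`. Then `h i = ∑_α μ_{iα} s i α`, so
`g (S i) (h i) ≤ λ_i := ∑_α μ_{iα}` (subadditive and homogeneous, `g (S i) (s i α) ≤ 1`), `y = ∑ λ_i c i` and
`y - τ h = ∑ (λ_i - g (S i) (h i)) c i` has `g Q ≤ ∑ (λ_i - g (S i) (h i)) = 1 - G h`.
`⊇`: let `Γ x ≤ 1`. `h i ∈ g (S i) (h i) • S i`, so `h i = ∑_α w_{iα} s i α` with `w ≥ 0`,
`∑_α w_{iα} = g (S i) (h i)` (all `w = 0` if the gauge is `0`). As `0 ∈ Q` and `g Q (y - τ h) ≤ 1 - G h` we have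
`y - τ h ∈ (1 - G h) • Q`, so `y - τ h = ∑ ν_i c i`, `ν ≥ 0`, `∑ ν_i = 1 - G h`. With the weights
`w_{iα} + ν_i / (b i + 1)` (sum `1`) the combination of the `pt ⟨i, α⟩` is `(∑ (g (S i) (h i) + ν_i) c i, h) = x`, because
`∑_α s i α = 0`. -/
def G_BV1 : Prop := ∀ (ι : Type) [Fintype ι] [DecidableEq ι] [Nonempty ι] (a : ℕ) (b : ι → ℕ)
  (c : ι → Fin a → ℝ) (s : (i : ι) → Fin (b i + 1) → Fin (b i) → ℝ),
  (∀ i, ∑ α, s i α = 0) →
  (∀ i, (0 : Fin (b i) → ℝ) ∈ interior (convexHull ℝ (range (s i)))) →
  (0 : Fin a → ℝ) ∈ interior (convexHull ℝ (range c)) →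
  convexHull ℝ (range (pt c s)) = {x | Gm c s x ≤ 1} ∧ Continuous (Gm c s)

/-- G_BV2: Fubini for the gauge of the blow-up.
Proof. The measure preserving identifications `(Fin a ⊕ Σ i, Fin (b i) → ℝ) ≃ (Fin a → ℝ) × (Σ.. → ℝ)`
(`volume_measurePreserving_sumPiEquivProdPi`), `(Σ i, Fin (b i) → ℝ) ≃ (Π i, Fin (b i) → ℝ)` (`MeasurableEquiv.piCurry`, measure
preserving: check on boxes, `Measure.pi_eq`), Tonelli and translation invariance in `y`
(`lintegral_sub_right_eq_self`): with `y` and `h` as in `Gm`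
`∫ exp(-Gm) = ∫_h exp(-G h) ∫_y exp(-g Q (y - τ h)) = (∫_y exp(-g Q y)) ∫_h exp(-G h)` and `exp(-G h) = ∏ exp(-g (S i) (h i))`; the
integral of a product over `Π i, (Fin (b i) → ℝ)` is the product of the integrals (`integral_fintype_prod_eq_prod` is the Bochner version; a `lintegral`
version follows by induction or from it, all functions here are continuous, positive and integrable - or prove the lintegral
version for general measurable functions by induction with `MeasurableEquiv.piFinSuccAbove` after reindexing). All gauges are continuous since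
`0` is in the interiors (`continuous_gauge`). -/
def G_BV2 : Prop := ∀ (ι : Type) [Fintype ι] [DecidableEq ι] [Nonempty ι] (a : ℕ) (b : ι → ℕ)
  (c : ι → Fin a → ℝ) (s : (i : ι) → Fin (b i + 1) → Fin (b i) → ℝ),
  (∀ i, (0 : Fin (b i) → ℝ) ∈ interior (convexHull ℝ (range (s i)))) →
  (0 : Fin a → ℝ) ∈ interior (convexHull ℝ (range c)) →
  ∫⁻ x, ENNReal.ofReal (Real.exp (-(Gm c s x))) =
    (∫⁻ y : Fin a → ℝ, ENNReal.ofReal (Real.exp (-(gauge (convexHull ℝ (range c)) y)))) *
      ∏ i, ∫⁻ h : Fin (b i) → ℝ, ENNReal.ofReal (Real.exp (-(gauge (convexHull ℝ (range (s i))) h)))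

/-- G_BV, volume of a blow-up: prove `theorem thm (hX : G_X) (h1 : G_BV1) (h2 : G_BV2) : G_BV`.
Proof. Translation: replacing `c` by `c - z` translates `P = convexHull (range (pt c s))` by `(z, 0)` and
`Q = convexHull (range c)` by `z`; so we may assume
`0 ∈ interior Q` (take `z ∈ interior Q`). Apply `G_X` to `Gm c s` (nonnegative, positively homogeneous:
`gauge_smul_of_nonneg`; continuous; `{Gm ≤ 1} = P` by `G_BV1`), to `gauge Q` on `Fin a → ℝ` and to `gauge (S i)` on `Fin (b i) → ℝ`
(`{gauge K ≤ 1} = K` for `K` closed convex with `0` in the interior), and `G_BV2`. -/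
def G_BV : Prop := ∀ (ι : Type) [Fintype ι] [DecidableEq ι] [Nonempty ι] (a : ℕ) (b : ι → ℕ)
  (c : ι → Fin a → ℝ) (s : (i : ι) → Fin (b i + 1) → Fin (b i) → ℝ),
  (∀ i, ∑ α, s i α = 0) →
  (∀ i, (0 : Fin (b i) → ℝ) ∈ interior (convexHull ℝ (range (s i)))) →
  (interior (convexHull ℝ (range c))).Nonempty →
  ((a + ∑ i, b i).factorial : ENNReal) * volume (convexHull ℝ (range (pt c s))) =
    (a.factorial : ENNReal) * volume (convexHull ℝ (range c)) *
      ∏ i, (((b i).factorial : ENNReal) * volume (convexHull ℝ (range (s i))))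

/-- G_SV, the volume of a simplex (degenerate simplices included).
Proof. Let `Δ = {x : Fin d → ℝ | (∀ i, 0 ≤ x i) ∧ ∑ x i ≤ 1}`. `d! vol Δ = 1`: induction on `d`, slices
`{x 0 = t} = (1 - t) Δ_{d-1}`, `∫_0^1 (1-t)^(d-1) dt = 1/d`; or by symmetry from
`MeasureTheory.volume_sum_rpow_le` with `p = 1`. The hull of the `p i` is the image of `Δ` under
`x ↦ p 0 + ∑ x i • (p i.succ - p 0)`; the linear part has determinant `det (p i.succ j - p 0 j)` (transpose);
`Measure.addHaar_image_linearMap` holds also if the determinant is `0`. `EuclideanSpace.volume_preserving_ofLp`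
(or similar names) goes between `E d` and `Fin d → ℝ`. -/
def G_SV : Prop := ∀ (d : ℕ) (p : Fin (d + 1) → E d),
  (d.factorial : ENNReal) * volume (convexHull ℝ (range p)) =
    ENNReal.ofReal |Matrix.det (Matrix.of fun i j : Fin d => p i.succ j - p 0 j)|

/-- G_RS, the regular simplex with edge length one: prove `theorem thm (hSV : G_SV) : G_RS`.
Proof. Let `G` be the `b × b` matrix `(δ_ij + 1) / 2`; it is positive definite
(`xᵀ G x = (|x|² + (∑ x)²)/2`) and `det G = (b + 1) / 2^b` (`det (1 + u vᵀ) = 1 + vᵀ u`,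
`Matrix.det_one_add_replicateCol_mul_replicateRow` or similar). Write `G = Aᵀ A` (square root of a positive semidefinite matrix)
and let `q 0 = 0`, `q (i+1) = A e_i`; so `⟪q (i+1), q (j+1)⟫ = G i j`, and all distances of different `q` are
`1` (`G_ii + G_jj - 2 G_ij = 1`, `G_ii = 1`). Put `s i = q i - z`, `z` the centroid. `∑ s = 0`.
`‖s i‖²`: from `∑_j ‖s i - s j‖² = b` and `∑_j ‖s i - s j‖² = (b+1) ‖s i‖² + ∑_j ‖s j‖²`; summing over `i`,
`2 (b+1) ∑ ‖s j‖² = b (b+1)`, so `∑ ‖s j‖² = b/2` and `‖s i‖² = (b - b/2)/(b+1)`. Volume by `G_SV`: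
`det = ± det A`, `(det A)² = det G`. As `det A ≠ 0` the `s i` are affinely independent and span, and `0`
is their centroid: `AffineBasis.centroid_mem_interior_convexHull` or `AffineBasis.interior_convexHull`. For `b = 0` all is trivial. -/
def G_RS : Prop := ∀ b : ℕ, ∃ s : Fin (b + 1) → E b, (∀ i j, i ≠ j → dist (s i) (s j) = 1) ∧
  ∑ i, s i = 0 ∧ (∀ i, ‖s i‖ ^ 2 = b / (2 * (b + 1))) ∧
  (0 : E b) ∈ interior (convexHull ℝ (range s)) ∧
  ((b.factorial : ℝ) * (volume (convexHull ℝ (range s))).toReal) ^ 2 = (b + 1) / 2 ^ b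

/-- G_BL, the blow-up lemma: prove `theorem thm (hBV : G_BV) (hRS : G_RS) : G_BL`.
Given `c i ∈ E a` (`i ∈ ι`) and numbers `b i ≥ 1` with `|c i - c j|² ≤ 1/(2(b i + 1)) + 1/(2(b j + 1))` for `i ≠ j`,
there is a polytope in `E d`, `d = a + ∑ b i`, with exactly `n = ∑ (b i + 1)` vertices and diameter one with
`(d! vol P)² 2^d = (a! vol conv c)² 2^a ∏ (b i + 1)`.
Proof. Let `s i` be the regular simplex of `G_RS` with `b i + 1` points. `P` is the hull of the points
`pt c s ⟨i, α⟩` (coordinates transported by an equivalence `Fin a ⊕ (Σ i, Fin (b i)) ≃ Fin d`, which preserves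
distances and the volume). Distances: in one class `|s i α - s i β| = 1`; for different classes
`|c i - c j|² + |s i α|² + |s j β|² ≤ 1/(2(b i+1)) + 1/(2(b j+1)) + b i/(2(b i+1)) + b j/(2(b j+1)) = 1`. So the diameter of the
hull is `1` (`convexHull_diam`; it is attained as `b i ≥ 1`). Volume: `G_BV` and `G_RS`; it is positive, so the
convex set `P` has nonempty interior. Extreme points: `extremePoints_convexHull_subset` gives `⊆ range pt`;
conversely every point `pt ⟨i, α⟩` is extreme: suppose it is a convex combination `∑ μ_{jβ} pt ⟨j, β⟩`; in the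
block `i`: `s i α = ∑_β μ_{iβ} s i β`; take the inner product with `s i α` and use
`⟪s i α, s i β⟫ < ‖s i α‖²` for `β ≠ α` and `‖s i α‖² > 0` (as `b i ≥ 1`): it follows `μ_{iα} = 1`. The same
argument shows that `pt` is injective, so the number of the vertices is `card (Σ i, Fin (b i + 1)) = n`. (A convenient form: the linear
functional `x ↦ ⟪block i of x, s i α⟫` takes on `range pt` its maximum `‖s i α‖²` only at `pt ⟨i, α⟩`, so this
point is exposed.) -/
def G_BL : Prop := ∀ (ι : Type) [Fintype ι] [Nonempty ι] (a : ℕ) (b : ι → ℕ)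
  (c : ι → E a) (d n : ℕ), (∀ i, 1 ≤ b i) →
  (∀ i j, i ≠ j → dist (c i) (c j) ^ 2 ≤ 1 / (2 * ((b i : ℝ) + 1)) + 1 / (2 * ((b j : ℝ) + 1))) →
  (interior (convexHull ℝ (range c))).Nonempty →
  d = a + ∑ i, b i → n = ∑ i, (b i + 1) →
  ∃ P : Set (E d), Admissible d n P ∧
    ((d.factorial : ℝ) * (volume P).toReal) ^ 2 * 2 ^ d =
      ((a.factorial : ℝ) * (volume (convexHull ℝ (range c))).toReal) ^ 2 * 2 ^ a *
        ∏ i, ((b i : ℝ) + 1)

/-- G_CAR, a `k`-fold Caratheodory theorem. `n = d + k` points, `k ≥ 1`; every point `x` of their hull is in the hulls of at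
least `k` different subsets with `d + 1` elements, so the volumes of all these simplices add up to at least
`k` times the volume of the hull.
Proof. Let `x` be in the hull. By Caratheodory (`convexHull_eq_union`; a set of affinely independent points of `E d` has at
most `d + 1` elements, enlarge it to a set `S₀` of exactly `d + 1` indices, possible as `n ≥ d + 1`; work with the indices,
the points `p i` may coincide) `x ∈ conv (p '' S₀)`, `S₀` with `d + 1` indices. For each of the `k - 1` indices `q ∉ S₀` there is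
`i ∈ S₀` with `x ∈ conv (p '' (S₀ \ {i} ∪ {q}))`: write `x = ∑_{S₀} λ_i p_i`. The `d + 2` points `p_i` (`i ∈ S₀`), `p_q` are
affinely dependent: `∑ μ_i p_i + μ p_q = 0`, `∑ μ_i + μ = 0`, not all zero; we may assume `μ ≥ 0`, and if
`μ = 0` that some `μ_i < 0` (always true up to sign, since then `∑ μ_i = 0`); if `μ > 0` some `μ_i < 0` because `∑ μ_i = -μ < 0`. Let
`t = min λ_i / (-μ_i)` over the `i` with `μ_i < 0`, attained at `i₀`. Then
`x = ∑ (λ_i + t μ_i) p_i + t μ p_q` is a convex combination in which `p_{i₀}` has the coefficient `0`. So these `k`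
sets (`S₀` and one for each `q`, each contains `q` and no other index outside `S₀`) are different. Hence
`k * indicator (hull) ≤ ∑_S indicator (conv (p '' S))` pointwise; integrate (all these sets are compact,
`lintegral_finset_sum`, `lintegral_indicator_const`). -/
def G_CAR : Prop := ∀ (d k : ℕ) (p : Fin (d + k) → E d), 1 ≤ k →
  (k : ENNReal) * volume (convexHull ℝ (range p)) ≤
    ∑ S ∈ Finset.powersetCard (d + 1) (Finset.univ : Finset (Fin (d + k))),
      volume (convexHull ℝ (p '' (S : Set (Fin (d + k)))))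

/-- G_CB: prove `theorem thm (hSV : G_SV) : G_CB`. The sum of the squares of the volumes of all simplices
spanned by `n` points of diameter at most one in `E d`.
Proof. Translate so that `∑ p i = 0` (volumes and distances do not change). Let `M` be the `n × (d+1)` matrix with
the rows `(1, p i)`. For `S` with `d + 1` elements, `(d! vol conv (p '' S))² = det (M_S)²`, `M_S` the rows of `S`
(`G_SV` with `p ∘ S.orderEmbOfFin`, subtract the row `0` from the other rows and expand along the first column; sign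
and order do not matter). By Cauchy-Binet
(`Pool.Agent.Helper36.Ru.cauchyBinet : Pool.Agent.Helper92.Ru.CauchyBinet`, or direct) `∑_S det (M_S)² = det (Mᵀ M)`, and as `∑ p i = 0`
the matrix `Mᵀ M` is block diagonal with blocks `n` and `B = ∑ p i (p i)ᵀ` (positive semidefinite). AM-GM for
the eigenvalues: `det B ≤ (tr B / d)^d` (`Matrix.IsHermitian.det_eq_prod_eigenvalues`,
`Real.inner_le_nnorm_mul_nnorm`-free: `Real.geom_mean_le_arith_mean_weighted` or `inner_mul_le_norm_mul_norm`; `trace_eq_sum_eigenvalues`), and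
`tr B = ∑ |p i|² = (1/(2n)) ∑_{i,j} |p i - p j|² ≤ (n (n-1)) / (2n) = (n-1)/2`. -/
def G_CB : Prop := ∀ (d n : ℕ) (p : Fin n → E d), 1 ≤ d → 1 ≤ n →
  (∀ i j, dist (p i) (p j) ≤ 1) →
  ∑ S ∈ Finset.powersetCard (d + 1) (Finset.univ : Finset (Fin n)),
    ((d.factorial : ℝ) * (volume (convexHull ℝ (p '' (S : Set (Fin n))))).toReal) ^ 2 ≤
    n * (((n : ℝ) - 1) / (2 * d)) ^ d

/-- G_UB: prove `theorem thm (hCAR : G_CAR) (hCB : G_CB) : G_UB`.
Proof. Let `n = d + k`. `(P.extremePoints ℝ).ncard = n > 0` so the set of the extreme points is finite; enumerate it,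
`p : Fin n → E d`. `P = convexHull (extremePoints P)` : `P` is compact and convex, Krein-Milman
`closure_convexHull_extremePoints` and the hull of a finite set is closed. Distances are at most `diam P = 1`
(`Metric.dist_le_diam_of_mem`, bounded). Let `t_S = d! vol conv (p '' S)` (real). `G_CAR`:
`k d! vol P ≤ ∑_S t_S`; Cauchy-Schwarz (`inner_mul_le_norm_mul_norm` or `sq_sum_le_card_mul_sum_sq`):
`(k d! vol P)² ≤ C(n, d+1) ∑ t_S² ≤ C(n, d+1) n ((n-1)/(2d))^d`. Multiply by `2^d`. -/
def G_UB : Prop := ∀ (d k : ℕ) (P : Set (E d)), 1 ≤ d → 1 ≤ k → Admissible d (d + k) P →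
  ((d.factorial : ℝ) * (volume P).toReal) ^ 2 * 2 ^ d * (k : ℝ) ^ 2 ≤
    ((d : ℝ) + k) * ((d + k).choose (d + 1)) * (((d : ℝ) + k - 1) / d) ^ d

/-- G_PENT, an almost regular pentagon.
The points are `(0, 52573)`, `(±50000, 16246)`, `(±30901, -42532)`, divided by `10^5`. The largest squared distance is `1`,
the squared norms are at most `0.2764`. The hull contains the set of all
`(x, y)` with `-0.42532 ≤ y ≤ 0.16246` and `|x| ≤ w(y)`, `w` affine with `w(-0.42532) = 0.30901`, `w(0.16246) = 0.5`, and of all `(x, y)` with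
`0.16246 ≤ y ≤ 0.52573` and `|x| ≤ w'(y)`, `w'` affine with `w'(0.16246) = 0.5`, `w'(0.52573) = 0`. Its area is
`(0.61802 + 1)/2 * 0.58778 + 0.36327/2 > 0.657` (`volume_regionBetween_eq_integral`, or three triangles). `0` is in the
hull and the interior is not empty (positive area and convex, or a small ball). -/
def G_PENT : Prop := ∃ c : Fin 5 → E 2, (∀ i j, dist (c i) (c j) ≤ 1) ∧ (∀ i, ‖c i‖ ^ 2 ≤ 0.2764) ∧
  (0 : E 2) ∈ convexHull ℝ (range c) ∧ (interior (convexHull ℝ (range c))).Nonempty ∧
  0.657 ≤ (volume (convexHull ℝ (range c))).toReal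

/-! ## Part A: many vertices -/

/-- G_COMP, completion. Every nonempty set of diameter at most one is contained in a complete one.
Proof. Zorn (`zorn_subset_nonempty`) for the sets `K ⊇ P` with `∀ x ∈ K, ∀ y ∈ K, dist x y ≤ 1`: the union of a nonempty
chain is such a set. Let `K` be maximal. If `w ∉ K` and `dist w y ≤ 1` for all `y ∈ K` then `K ∪ {w}` is a larger such
set. The closure of `K` and the convex hull of `K` have the same property, so `K` is closed and convex; bounded, so compact
(`Metric.isCompact_of_isClosed_isBounded`). For the hull: `convexHull_diam`/ `convexHull_exists_dist_ge2`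
(`dist x y ≤ dist x' y'` for some `x', y' ∈ K`). -/
def G_COMP : Prop := ∀ (d : ℕ) (P : Set (E d)), P.Nonempty → (∀ x ∈ P, ∀ y ∈ P, dist x y ≤ 1) →
  ∃ K : Set (E d), P ⊆ K ∧ Complete1 K

/-- G_ISO, the isodiametric inequality for compact convex sets.
Proof. Brunn-Minkowski: see `Pool.Agent.Helper65.Mahler.BM` (`brunn_minkowski`, on `Fin n → ℝ`) gives
`vol ((K - K)/2)^(1/d) ≥ (vol (K/2)^(1/d) + vol (-K/2)^(1/d)) = vol K^(1/d)`. And `(K - K)/2` is contained in
the closed ball of radius `1/2` about `0`, whose volume is the one of the open ball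
(`Measure.addHaar_closedBall_eq_addHaar_ball`). Empty `K` and `d = 0` are trivial (`d = 0`: both sides are `1`). -/
def G_ISO : Prop := ∀ (d : ℕ) (K : Set (E d)), IsCompact K → Convex ℝ K →
  (∀ x ∈ K, ∀ y ∈ K, dist x y ≤ 1) → volume K ≤ volume (Metric.ball (0 : E d) (1 / 2))

/-- G_CAP. `K` complete, `c ∈ K`, `T ⊆ K`, `h = r²/2`. A point `z ∈ K` outside of the homothetic copy
`c + (1 - h)(K - c)` and outside of all hulls of `{c} ∪ closedBall v r`, `v ∈ T`, is not in the hull of `T`.
Proof. `z ≠ c` (else `w = c` contradicts). The set of `t ≥ 0` with `c + t (z - c) ∈ K` is compact, let `t₀ ≥ 1` be its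
maximum, `x = c + t₀ (z - c) ∈ K`, `s = 1/t₀`, so `z = c + s (x - c)`, `0 < s ≤ 1`. `s > 1 - h`: otherwise
`z = c + (1 - h)(w - c)` with `w = c + (s/(1-h)) (x - c) ∈ K` (`1 - h ≥ 1/2 > 0`, convexity). For `v ∈ T`:
`dist x v > r`, otherwise `z` is in the segment from `c` to `x ∈ closedBall v r`. For every `m` the point
`c + (t₀ + 1/(m+1)) (z - c)` is not in `K`, so it has distance `> 1` from some `y_m ∈ K`; a subsequence converges
to `y ∈ K`, `|x - y| ≥ 1`, so `|x - y| = 1` (both in `K`). Let `u = x - y`, `|u| = 1`. For `v ∈ T`: `|v - y| ≤ 1` (as `v ∈ K`), so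
`r² < |v - x|² = |v - y|² - 2 ⟪v - y, u⟫ + 1 ≤ 2 - 2 ⟪v - y, u⟫`, so `⟪v - y, u⟫ < 1 - h`. The set
`{q | ⟪q - y, u⟫ < 1 - h}` is convex, so it contains the hull of `T`. But
`⟪z - y, u⟫ = s ⟪x - y, u⟫ + (1 - s) ⟪c - y, u⟫ ≥ s > 1 - h`, since `⟪c - y, u⟫ = ⟪c - x, u⟫ + 1 ≥ -|c - x| + 1 ≥ 0`. -/
def G_CAP : Prop := ∀ (d : ℕ) (K T : Set (E d)) (c : E d) (r : ℝ), Complete1 K → c ∈ K → T ⊆ K →
  0 < r → r ≤ 1 → ∀ z ∈ K, (∀ w ∈ K, z ≠ c + (1 - r ^ 2 / 2) • (w - c)) →
  (∀ v ∈ T, z ∉ convexHull ℝ (insert c (Metric.closedBall v r))) → z ∉ convexHull ℝ T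

/-- G_CONE. Proof. A point of the hull is `(1 - s) c + s x` with `|x - v| ≤ r` (`convexHull_insert`, `closedBall` convex), so it has
distance `≤ r` from the point `c + s (v - c)` of the segment. Let `N = ⌈1/r⌉₊`; every point of the segment has distance `≤ 1/N ≤ r` from one of the `N + 1`
points `c + (j/N)(v - c)`. So the hull is covered by `N + 1 ≤ 1/r + 2 ≤ 3/r` closed balls of radius `2 r`, each of
volume `(2 r)^d vol (ball 0 1)` (`Measure.addHaar_closedBall`). `(3/r) (2r)^d = 3 * 2^d * r^(d-1)`. -/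
def G_CONE : Prop := ∀ (d : ℕ) (c v : E d) (r : ℝ), 1 ≤ d → dist c v ≤ 1 → 0 < r → r ≤ 1 →
  volume (convexHull ℝ (insert c (Metric.closedBall v r))) ≤
    ENNReal.ofReal (3 * 2 ^ d * r ^ (d - 1)) * volume (Metric.ball (0 : E d) 1)

/-- G_UPA: prove `theorem thm (h1 : G_COMP) (h2 : G_ISO) (h3 : G_CAP) (h4 : G_CONE) : G_UPA`. `β d` is the volume of the ball of
radius `1/2`, so `vol (ball 0 1) = 2^d β d`.
Proof. If `vol P ≤ β/2` we are done since `1 - r²/4 ≥ 3/4`. Otherwise let `K ⊇ P` be complete (`G_COMP`; `P` has diameter one and is bounded), so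
`vol K ≥ vol P > β/2`. Let `T` be the set of the extreme points of `P`: `n` points (`ncard = n`, finite if `n > 0`; if `n = 0` then `P` is empty by Krein-Milman,
impossible), `P = convexHull T` (Krein-Milman, as for `G_UB`), `c ∈ T`. `W` = the union over `v ∈ T` of the hulls of
`{c} ∪ closedBall v r`: compact, `vol W ≤ n * 3 * 2^d r^(d-1) * 2^d β ≤ β/4 < vol K / 2`. Let `h = r²/2`,
`φ w = c + (1 - h)(w - c)`, `λ = (1 - h)^d`, so `vol (φ '' X) = λ vol X` for every set `X`. By `G_CAP`
`P ⊆ φ '' K ∪ (K ∩ W)`. `φ` maps `K ∩ W` into itself (all sets involved are convex and contain `c`) and into `φ '' K`, so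
`vol ((K ∩ W) \ φ '' K) ≤ vol (K ∩ W) - vol (φ '' (K ∩ W)) = (1 - λ) vol (K ∩ W) ≤ (1 - λ) vol K / 2`. Hence
`vol P ≤ λ vol K + (1 - λ) vol K / 2 = (1 + λ)/2 vol K ≤ (1 - h/2) vol K ≤ (1 - r²/4) β`, using `λ ≤ 1 - h` (`d ≥ 1`) and `G_ISO`. -/
def G_UPA : Prop := ∀ (d n : ℕ) (P : Set (E d)) (r : ℝ), 1 ≤ d → Admissible d n P → 0 < r → r ≤ 1 →
  (n : ℝ) * (3 * 4 ^ d * r ^ (d - 1)) ≤ 1 / 4 → (volume P).toReal ≤ (1 - r ^ 2 / 4) * β d

/-- G_SEP, nets of the unit sphere. Proof. Let `X` be a maximal `δ`-separated (distances `> δ`, or `≥ δ`) subset of the unit sphere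
(compact, so every separated set is finite with a bound for the number, take one with the largest number, or Zorn);
maximality gives the covering. The balls `ball x (δ/2)`, `x ∈ X`, are disjoint and contained in
`{1 - δ/2 ≤ |z| < 1 + δ/2}`, of volume `((1 + δ/2)^d - (1 - δ/2)^d) ω`, `ω = vol (ball 0 1)`, and
`(1 + u)^d - (1 - u)^d ≤ 2 d u (1 + u)^(d-1) ≤ 2 d u 2^(d-1)` for `0 ≤ u ≤ 1/2` (mean value theorem, or induction). So
`|X| (δ/2)^d ≤ d δ 2^(d-1)`, `|X| ≤ d 2^(2d-1) / δ^(d-1)`. -/
def G_SEP : Prop := ∀ d : ℕ, 2 ≤ d → ∃ C : ℝ, 0 < C ∧ ∀ δ : ℝ, 0 < δ → δ ≤ 1 →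
  ∃ X : Finset (E d), (∀ x ∈ X, ‖x‖ = 1) ∧ (X.card : ℝ) ≤ C / δ ^ (d - 1) ∧
    ∀ u : E d, ‖u‖ = 1 → ∃ x ∈ X, dist u x ≤ δ

/-- G_HULL. Proof. Suppose `z ∉ convexHull X` (closed convex); a separating hyperplane (`geometric_hahn_banach_closed_point` and the
Riesz representation) gives a unit vector `u` (the functional is not zero because `X` is not empty, `d ≥ 1`) with `⟪x, u⟫ < ⟪z, u⟫ ≤ |z|` for all
`x ∈ X`. But some `x ∈ X` has `|u - x| ≤ δ`, so `⟪x, u⟫ = 1 - |u - x|²/2 ≥ 1 - δ²/2`. So `|z| > 1 - δ²/2`. -/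
def G_HULL : Prop := ∀ (d : ℕ) (X : Finset (E d)) (δ : ℝ), 1 ≤ d → 0 < δ → δ ≤ 1 → (∀ x ∈ X, ‖x‖ = 1) →
  (∀ u : E d, ‖u‖ = 1 → ∃ x ∈ X, dist u x ≤ δ) →
  Metric.closedBall (0 : E d) (1 - δ ^ 2 / 2) ⊆ convexHull ℝ (X : Set (E d))

/-- G_LOA: prove `theorem thm (h1 : G_SEP) (h2 : G_HULL) : G_LOA`. (Here `V` is bounded above: every admissible `P` has diameter
one, so it is contained in a closed ball of radius one about one of its points.)
Proof. `V d n ≥ 0` always (`Real.sSup_nonneg`), so for `n ≤ n₀` the claim holds if `C` is large. Let `C₀` be the constant of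
`G_SEP`, `n ≥ 2 C₀`, `n ≥ 4`, `δ = (2 C₀ / n)^(1/(d-1)) ≤ 1`, so `C₀/δ^(d-1) = n/2`; `X` from `G_SEP`, `|X| ≤ n/2 ≤ n - 2`. Let `x₀ ∈ X` and choose
a finite set `Y ⊇ X ∪ {-x₀}` of unit vectors with exactly `n` elements (the unit sphere is infinite for `d ≥ 2`: `Set.Infinite.exists_superset_ncard_eq`-type lemma). Put
`Z = (1/2) • Y` (all of norm `1/2`) and `P = convexHull Z`. All points of `Z` are extreme (all have the norm `1/2`, strict convexity of the norm;
`extremePoints_convexHull_subset` gives the converse): exactly `n` vertices. The diameter is at most `1` (inside of the closed ball of radius `1/2`) and at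
least `|x₀/2 + x₀/2| = 1`. By `G_HULL` (for `Y`, and scaling by `1/2`) `P` contains the closed ball of radius `(1 - δ²/2)/2 > 0`, so
`vol P ≥ (1 - δ²/2)^d β ≥ (1 - d δ²/2) β` (Bernoulli), and `δ² = (2 C₀)^(2/(d-1)) n^(-2/(d-1))`. -/
def G_LOA : Prop := ∀ d : ℕ, 2 ≤ d → ∃ C : ℝ, 0 < C ∧ ∀ n : ℕ, d + 1 ≤ n →
  (1 - C * (n : ℝ) ^ (-(2 / ((d : ℝ) - 1)))) * β d ≤ V d n

/-! ## Part T: the supremum is attained -/

/-- G_MAX. Among all `n`-tuples of points of diameter at most one there is one whose hull has the largest volume.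
Proof. Translate so that `p 0 = 0`: then all points are in the closed unit ball (compact); the set of the tuples
`p : Fin n → E d` with `p 0 = 0` and all distances `≤ 1` is compact (closed and bounded). `p ↦ vol (conv (range p))` is
upper semicontinuous: for a given `p` and every `ε > 0` there is `η > 0` with `vol (cthickening η (conv (range p))) < vol (conv (range p)) + ε`
(`tendsto_measure_cthickening_of_isCompact`), and if `|q i - p i| ≤ η` for all `i` then
`conv (range q) ⊆ cthickening η (conv (range p))` (the thickening of a convex set is convex: `Convex.cthickening`). An upper semicontinuous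
function on a nonempty compact set attains its maximum (`UpperSemicontinuousOn.exists_isMaxOn` or via a maximising sequence). -/
def G_MAX : Prop := ∀ (d n : ℕ), 1 ≤ n → ∃ p : Fin n → E d, (∀ i j, dist (p i) (p j) ≤ 1) ∧
  ∀ q : Fin n → E d, (∀ i j, dist (q i) (q j) ≤ 1) →
    volume (convexHull ℝ (range q)) ≤ volume (convexHull ℝ (range p))

/-- G_AUG. A polytope of diameter at most one in dimension `d ≥ 2` is never complete: there is a point
outside of it with distance at most one from all its points.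
Proof. `P = conv (range p)` is compact and convex with nonempty interior, and `P ≠ univ`. Choose a point `x ∈ frontier P` which is not in `range p`, for
example: the frontier of `P` is infinite: for `c` in the interior and every unit vector `u` the ray `c + t u`, `t ≥ 0`, has a last point in `P`; it
is in the frontier, and different `u` give different points; there are infinitely many `u` as `d ≥ 2`. As `x ∉ range p`, `x` is not an
extreme point of `P` (`extremePoints_convexHull_subset`), so `x` is in an open segment of two different points `x₁, x₂ ∈ P`. Suppose that for every `w ∉ P` there is `y ∈ P` with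
`dist w y > 1`. As `x` is in the frontier there are `w_m ∉ P`, `w_m → x`, and `y_m ∈ P` with `dist w_m y_m > 1`; for a limit `y ∈ P` of a
subsequence `dist x y ≥ 1`. But `dist x₁ y ≤ 1`, `dist x₂ y ≤ 1` and `x₁ ≠ x₂`, so by strict convexity `dist x y < 1`, a contradiction. -/
def G_AUG : Prop := ∀ (d n : ℕ) (p : Fin n → E d), 2 ≤ d → (∀ i j, dist (p i) (p j) ≤ 1) →
  (interior (convexHull ℝ (range p))).Nonempty →
  ∃ w : E d, w ∉ convexHull ℝ (range p) ∧ ∀ i, dist w (p i) ≤ 1

/-- G_STR. Prove `theorem thm : G_STR`. If `w` is not in the compact convex set `P` with nonempty interior, then the hull of `P ∪ {w}` has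
a strictly larger volume.
Proof. Let `c` be in the interior of `P`, `ball c ε ⊆ P`. `P` is closed so some `ball w δ` is disjoint from `P`. The point `w' = w + t (c - w)` with a small `t > 0` is in
`ball w δ` and in the interior of the hull (it is the centre of the ball `w + t (ball c ε - w) ⊆ hull`, radius `t ε`); so a small ball about `w'` is contained in
the hull and disjoint from `P`; it has positive volume, and `vol P` is finite. -/
def G_STR : Prop := ∀ (d : ℕ) (P : Set (E d)) (w : E d), IsCompact P → Convex ℝ P → (interior P).Nonempty →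
  w ∉ P → volume P < volume (convexHull ℝ (insert w P))

/-- `p` is a maximiser: an `n`-tuple of points of diameter at most one with the largest possible volume
of the hull. -/
def Mx (d n : ℕ) (p : Fin n → E d) : Prop := (∀ i j, dist (p i) (p j) ≤ 1) ∧
  ∀ q : Fin n → E d, (∀ i j, dist (q i) (q j) ≤ 1) →
    volume (convexHull ℝ (range q)) ≤ volume (convexHull ℝ (range p))

/-- G_MX1: prove `theorem thm (h1 : G_MAX) (h2 : G_AUG) (h3 : G_STR) : G_MX1`.
Let `M n` be the largest volume for `n`-tuples (`G_MAX`; `d ≥ 2` is given). (1) `M n > 0` for `n ≥ d + 1` (a small simplex, for example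
`0` and `e_i / 2`, repeated points allowed; its hull has nonempty interior), so the hull of a maximiser has nonempty interior
(`Convex.addHaar_frontier`: a convex set with empty interior is null). (2) `M n < M (n + 1)` for `n ≥ d + 1`:
`G_AUG` and `G_STR` for the maximiser, the tuple `Fin.snoc p w`. (3) In a maximiser `p` for `n ≥ d + 1` all points are different and extreme: if some `p i` is
in the hull of the others, then the hull is the hull of `n - 1` points, so `M n ≤ M (n-1)`: contradiction with (2) if `n - 1 ≥ d + 1`; if `n = d + 1`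
the hull of `d` points has volume `0` (it is contained in a proper affine subspace,
`Measure.addHaar_affineSubspace`), contradiction with (1). If every `p i` is not in the hull of the others then `p` is injective and every `p i` is
extreme (`convexIndependent..`, `mem_extremePoints_convexHull_iff..` or direct); `extremePoints_convexHull_subset` for the converse. (4) The
diameter of the hull `P` is `1`: it is `D ≤ 1` (`convexHull_diam`), `D > 0`, and the tuple `p / D` has diameter one and
volume `D^(-d) vol P ≤ M n`, so `D ≥ 1`. -/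
def G_MX1 : Prop := ∀ (d n : ℕ) (p : Fin n → E d), 2 ≤ d → d + 1 ≤ n → Mx d n p →
  Admissible d n (convexHull ℝ (range p)) ∧
  ∀ q : Fin (n + 1) → E d, Mx d (n + 1) q →
    volume (convexHull ℝ (range p)) < volume (convexHull ℝ (range q))

/-- G_ATT: prove `theorem thm (h1 : G_MAX) (h3 : G_STR) (hM : G_MX1) : G_ATT`.
Every admissible set `Q` with `n` vertices is the hull of its `n` extreme points
(Krein-Milman `closure_convexHull_extremePoints`, finite set), so `vol Q ≤ M n`, the volume for a maximiser of `G_MAX`; so `V d n = M n` is attained by `G_MX1`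
(all volumes are finite), and `V d n < V d (n+1)`. Last part: let `Q` be admissible with `vol Q = V d n`, `v` an extreme point
of `Q` and suppose that `dist v v' < 1` for all the extreme points `v'` (all distances are at most `1`; finitely many). Take another extreme point `x₀` and
`w = v + ε (v - x₀)`, `ε > 0` small, so that still `dist w v' ≤ 1` for all extreme points `v'`. Replace `v` by `w`: the new hull contains `w` and `x₀` so also
`v`, so it contains `Q`, and `w ∉ Q` (as `v` is extreme and in the open segment from `x₀` to `w`). By `G_STR` its volume is larger than `vol Q = M n`, but it is the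
hull of `n` points of diameter at most one, a contradiction. -/
def G_ATT : Prop := ∀ (d n : ℕ), 2 ≤ d → d + 1 ≤ n →
  (∃ P : Set (E d), Admissible d n P ∧ (volume P).toReal = V d n) ∧ V d n < V d (n + 1) ∧
  ∀ P : Set (E d), Admissible d n P → (volume P).toReal = V d n →
    ∀ v ∈ P.extremePoints ℝ, ∃ w ∈ P.extremePoints ℝ, dist v w = 1

end Pool.Agent.Helper86.Poly
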