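import Pool.Agent.Helper57.Poly.X
import Pool.Agent.Helper37.Poly.BV1
import Pool.Agent.Helper73.Poly.BV2
import Pool.Agent.Helper29.Poly.BV
import Pool.Agent.Helper45.Poly.SV
import Pool.Agent.Helper48.Poly.RS
import Pool.Agent.Helper77.Poly.BL
import Pool.Agent.Helper32.Poly.CAR
import Pool.Agent.Helper37.Poly.CB
import Pool.Agent.Helper65.Poly.UB
import Pool.Agent.Helper57.Poly.PENT
import Pool.Agent.Helper49.Poly.COMP
import Pool.Agent.Helper8.Poly.ISO
import Pool.Agent.Helper87.Poly.CAP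
import Pool.Agent.Helper31.Poly.CONE
import Pool.Agent.Helper8.Poly.UPA
import Pool.Agent.Helper1.Poly.SEP
import Pool.Agent.Helper83.Poly.HULL
import Pool.Agent.Helper33.Poly.LOA
import Pool.Agent.Helper35.Poly.MAX
import Pool.Agent.Helper10.Poly.AUG
import Pool.Agent.Helper29.Poly.STR
import Pool.Agent.Helper34.Poly.MX1
import Pool.Agent.Helper8.Poly.ATT

/-! # MP_cd13d2_co : assembly of the packets -/

set_option autoImplicit false

namespace Pool.Agent.Helper86.Poly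

theorem pX : G_X := Pool.Agent.Helper57.Poly.PkX.thm
theorem pBV : G_BV := Pool.Agent.Helper29.Poly.PkBV.thm pX Pool.Agent.Helper37.Poly.PkBV1.thm
  Pool.Agent.Helper73.Poly.PkBV2.thm
theorem pSV : G_SV := Pool.Agent.Helper45.Poly.PkSV.thm
theorem pRS : G_RS := Pool.Agent.Helper48.Poly.PkRS.thm pSV
theorem pBL : G_BL := Pool.Agent.Helper77.Poly.PkBL.thm pBV pRS
theorem pUB : G_UB := Pool.Agent.Helper65.Poly.PkUB.thm Pool.Agent.Helper32.Poly.PkCAR.thm
  (Pool.Agent.Helper37.Poly.PkCB.thm pSV)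
theorem pPENT : G_PENT := Pool.Agent.Helper57.Poly.PkPENT.thm
theorem pISO : G_ISO := Pool.Agent.Helper8.Poly.PkISO.thm
theorem pUPA : G_UPA := Pool.Agent.Helper8.Poly.PkUPA.thm Pool.Agent.Helper49.Poly.PkCOMP.thm
  pISO Pool.Agent.Helper87.Poly.PkCAP.thm Pool.Agent.Helper31.Poly.PkCONE.thm
theorem pLOA : G_LOA := Pool.Agent.Helper33.Poly.PkLOA.thm Pool.Agent.Helper1.Poly.PkSEP.thm
  Pool.Agent.Helper83.Poly.PkHULL.thm
theorem pMAX : G_MAX := Pool.Agent.Helper35.Poly.PkMAX.thm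
theorem pSTR : G_STR := Pool.Agent.Helper29.Poly.PkSTR.thm
theorem pATT : G_ATT := Pool.Agent.Helper8.Poly.PkATT.thm pMAX pSTR
  (Pool.Agent.Helper34.Poly.PkMX1.thm pMAX Pool.Agent.Helper10.Poly.PkAUG.thm pSTR)

end Pool.Agent.Helper86.Poly
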