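import Mathlib

/-! # MP_cd13d2_co : polytopes of diameter one with n vertices, definitions -/

set_option autoImplicit false

namespace Pool.Agent.Helper86.Poly

open MeasureTheory Set

/-- Euclidean `d`-space -/
abbrev E (d : ℕ) := EuclideanSpace ℝ (Fin d)

/-- A convex polytope: the convex hull of finitely many points. -/
def IsPolytope {d : ℕ} (P : Set (E d)) : Prop :=
  ∃ s : Set (E d), s.Finite ∧ P = convexHull ℝ s

/-- `P` is a `d`-dimensional convex polytope with exactly `n` vertices and diameter one. -/
def Admissible (d n : ℕ) (P : Set (E d)) : Prop :=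
  IsPolytope P ∧ (interior P).Nonempty ∧ (P.extremePoints ℝ).ncard = n ∧ Metric.diam P = 1

/-- The supremum of the volumes of `d`-dimensional convex polytopes with exactly `n` vertices and
diameter one. -/
noncomputable def V (d n : ℕ) : ℝ :=
  sSup {v : ℝ | ∃ P : Set (E d), Admissible d n P ∧ v = (volume P).toReal}

/-- volume of the ball of radius one half -/
noncomputable def β (d : ℕ) : ℝ := (volume (Metric.ball (0 : E d) (1 / 2))).toReal

/-- `K` is diametrically complete (of diameter at most one). -/
def Complete1 {d : ℕ} (K : Set (E d)) : Prop :=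
  IsCompact K ∧ Convex ℝ K ∧ (∀ x ∈ K, ∀ y ∈ K, dist x y ≤ 1) ∧ ∀ w, w ∉ K → ∃ y ∈ K, 1 < dist w y

/-- points of a blow-up: the point with class `i` and number `α` has the coordinates `c i`, the
coordinates of `s i α` in the block `i`, and zeros in the other blocks -/
noncomputable def pt {ι : Type} [DecidableEq ι] {a : ℕ} {b : ι → ℕ} (c : ι → Fin a → ℝ)
    (s : (i : ι) → Fin (b i + 1) → Fin (b i) → ℝ) (x : Σ i, Fin (b i + 1)) :
    (Fin a ⊕ (Σ i, Fin (b i))) → ℝ :=
  Sum.elim (c x.1) (fun y => if h : x.1 = y.1 then
    s y.1 (Fin.cast (congrArg (fun i => b i + 1) h) x.2) y.2 else 0)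

end Pool.Agent.Helper86.Poly
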