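import Pool.Agent.Helper86.Poly.Goals

/-! # MP_cd13d2_co : one more packet, the volume of a direct sum of regular simplices -/

set_option autoImplicit false

namespace Pool.Agent.Helper86.Poly

open MeasureTheory Set

/-- G_DS: prove `theorem PkDS.thm (hBV : G_BV) (hRS : G_RS) : G_DS` (both are proved, see
`Pool.Agent.Helper86.Poly.Asm`: `pBV`, `pRS`).
`p ⟨i, α⟩`, `α ∈ Fin (b i + 1)`, are the vertices of regular simplices of edge length one with the common centroid `0` in
pairwise orthogonal subspaces, and the dimensions add up to `d`. Then `(d! vol)² 2^d = ∏ (b i + 1)`.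
Proof. (1) The standard configuration: let `s i` be the simplex of `G_RS` and `q = pt c s` with `a = 0`, `c = 0`; a family in
`Fin 0 ⊕ (Σ i, Fin (b i)) → ℝ`; transport it by an equivalence `Fin 0 ⊕ (Σ i, Fin (b i)) ≃ Fin d` to `q : (Σ i, Fin (b i + 1)) → E d` (preserves inner products and the
volume; compare `Pool.Agent.Helper77.Poly.BL`, where this is done for `G_BL`). By `G_BV` and `G_RS`, `(d! vol conv q)² 2^d = ∏ (b i + 1)`.
(For `k = 0` the index type is empty, then `d = 0` and `range p` is empty: excluded by `1 ≤ k`.)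
(2) All inner products of `p` and of `q` are the same: `⟪p ⟨i,α⟩, p ⟨j,β⟩⟫ = 0` for `i ≠ j`; in one class with `m = b i + 1` points, from
`∑_β ‖p_α - p_β‖² = m - 1` and `∑_β p_β = 0`: `m ‖p_α‖² + ∑_β ‖p_β‖² = m - 1`, so (sum over `α`) `∑_β ‖p_β‖² = (m-1)/2`, `‖p_α‖² = (m-1)/(2m)` and
`⟪p_α, p_β⟫ = (‖p_α‖² + ‖p_β‖² - 1)/2 = -1/(2m)` for `α ≠ β`.
(3) Let `v x = p ⟨i, α.succ⟩ - p ⟨i, 0⟩` and `w x = q ⟨i, α.succ⟩ - q ⟨i, 0⟩` for `x = ⟨i, α⟩ ∈ Σ i, Fin (b i) ≃ Fin d`; let `A`, `B` be the `d × d` matrices with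
the rows `v`, `w`. `A Aᵀ = B Bᵀ` is the common Gram matrix, which is block diagonal with the blocks `(δ_αβ + 1)/2`, so it is positive definite
and `A`, `B` are invertible with `|det A| = |det B|`. The linear map `T` with `T (w x) = v x` (`T = (B⁻¹ A)ᵀ` acting on columns) satisfies `|det T| = 1`. Moreover
`T (q y) = p y` for all `y`, because `q ⟨i, 0⟩ = -(1/(b i + 1)) ∑_α w ⟨i, α⟩` and `q ⟨i, α.succ⟩ = q ⟨i, 0⟩ + w ⟨i, α⟩`, the same for `p`, `v`. So
`conv (range p) = T '' conv (range q)` (`LinearMap.image_convexHull`) and `vol conv (range p) = |det T| vol conv (range q)` (`Measure.addHaar_image_linearMap`).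
(The `w x` are a basis of `E d`, so `T` can also be defined with `Module.Basis.constr`; it preserves all inner products of the basis, so it is
a linear isometry, and a linear isometry equivalence preserves the volume: `LinearIsometryEquiv.measurePreserving`.) -/
def G_DS : Prop := ∀ (d k : ℕ) (b : Fin k → ℕ) (p : (Σ i, Fin (b i + 1)) → E d), 1 ≤ k →
  d = ∑ i, b i → (∀ i (α β : Fin (b i + 1)), α ≠ β → dist (p ⟨i, α⟩) (p ⟨i, β⟩) = 1) →
  (∀ i, ∑ α, p ⟨i, α⟩ = 0) →
  (∀ i j, i ≠ j → ∀ (α : Fin (b i + 1)) (β : Fin (b j + 1)), inner ℝ (p ⟨i, α⟩) (p ⟨j, β⟩) = 0) →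
  ((d.factorial : ℝ) * (volume (convexHull ℝ (range p))).toReal) ^ 2 * 2 ^ d = ∏ i, ((b i : ℝ) + 1)

end Pool.Agent.Helper86.Poly
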