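import Pool.Agent.Helper86.Poly.Asm
import Pool.Agent.Helper58.Poly.DS

/-! # MP_cd13d2_co : the final analysis -/

set_option autoImplicit false

namespace Pool.Agent.Helper86.Poly

open MeasureTheory Set Filter Topology
open scoped Pointwise

theorem pDS {d k : ℕ} {b : Fin k → ℕ} {p : (Σ i, Fin (b i + 1)) → E d} (hk : 1 ≤ k)
    (hd : d = ∑ i, b i) (h1 : ∀ i (α β : Fin (b i + 1)), α ≠ β → dist (p ⟨i, α⟩) (p ⟨i, β⟩) = 1)
    (h2 : ∀ i, ∑ α, p ⟨i, α⟩ = 0)
    (h3 : ∀ i j, i ≠ j → ∀ (α : Fin (b i + 1)) (β : Fin (b j + 1)),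
      inner ℝ (p ⟨i, α⟩) (p ⟨j, β⟩) = 0) :
    ((d.factorial : ℝ) * (volume (convexHull ℝ (range p))).toReal) ^ 2 * 2 ^ d =
      ∏ i, ((b i : ℝ) + 1) :=
  Pool.Agent.Helper58.Poly.PkDS.thm pBV pRS d k b p hk hd h1 h2 h3

/-! ### admissible polytopes -/

theorem adm_subset {d n : ℕ} {P : Set (E d)} (h : Admissible d n P) :
    IsCompact P ∧ Convex ℝ P ∧ ∀ x ∈ P, ∀ y ∈ P, dist x y ≤ 1 := by
  obtain ⟨⟨s, hs, rfl⟩, _, _, hd⟩ := h
  have hc : IsCompact (convexHull ℝ s) := Set.Finite.isCompact_convexHull ℝ hs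
  refine ⟨hc, convex_convexHull ℝ s, fun x hx y hy => ?_⟩
  rw [← hd]
  exact Metric.dist_le_diam_of_mem hc.isBounded hx hy

theorem β_nonneg (d : ℕ) : 0 ≤ β d := ENNReal.toReal_nonneg

theorem adm_le_β {d n : ℕ} {P : Set (E d)} (h : Admissible d n P) : (volume P).toReal ≤ β d := by
  obtain ⟨hc, hcv, hd⟩ := adm_subset h
  have h1 := pISO d P hc hcv hd
  exact ENNReal.toReal_mono (ne_of_lt Metric.isBounded_ball.measure_lt_top) h1

theorem bdd (d n : ℕ) : BddAbove {v : ℝ | ∃ P : Set (E d), Admissible d n P ∧ v = (volume P).toReal} := by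
  refine ⟨β d, ?_⟩
  rintro v ⟨P, hP, rfl⟩
  exact adm_le_β hP

theorem le_V {d n : ℕ} {P : Set (E d)} (h : Admissible d n P) : (volume P).toReal ≤ V d n :=
  le_csSup (bdd d n) ⟨P, h, rfl⟩

theorem V_nonneg (d n : ℕ) : 0 ≤ V d n := by
  apply Real.sSup_nonneg
  rintro v ⟨P, _, rfl⟩
  exact ENNReal.toReal_nonneg

theorem V_le {d n : ℕ} {X : ℝ} (hX : 0 ≤ X)
    (h : ∀ P : Set (E d), Admissible d n P → (volume P).toReal ≤ X) : V d n ≤ X := by
  apply Real.sSup_le _ hX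
  rintro v ⟨P, hP, rfl⟩
  exact h P hP

/-- if all admissible `P` satisfy `c vol² ≤ R` then so does `V` -/
theorem V_sq_le {d n : ℕ} {c R : ℝ} (hc : 0 < c) (hR : 0 ≤ R)
    (h : ∀ P : Set (E d), Admissible d n P → c * (volume P).toReal ^ 2 ≤ R) :
    c * V d n ^ 2 ≤ R := by
  have h1 : V d n ≤ √(R / c) := by
    apply V_le (Real.sqrt_nonneg _)
    intro P hP
    apply Real.le_sqrt_of_sq_le
    rw [le_div_iff₀ hc, mul_comm]
    exact h P hP
  have h2 : V d n ^ 2 ≤ R / c := by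
    calc V d n ^ 2 ≤ √(R / c) ^ 2 := pow_le_pow_left₀ (V_nonneg d n) h1 2
      _ = R / c := Real.sq_sqrt (by positivity)
  rw [le_div_iff₀ hc] at h2
  linarith

/-! ### fixed dimension -/

theorem many (d : ℕ) (hd : 2 ≤ d) : ∃ c C : ℝ, 0 < c ∧ 0 < C ∧ ∀ n : ℕ, d + 1 ≤ n →
    (1 - C * (n : ℝ) ^ (-(2 / ((d : ℝ) - 1)))) * β d ≤ V d n ∧
    V d n ≤ (1 - c * (n : ℝ) ^ (-(2 / ((d : ℝ) - 1)))) * β d := by
  obtain ⟨C, hC, hlo⟩ := pLOA d hd
  have hd1 : (0 : ℝ) < (d : ℝ) - 1 := by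
    have : (2 : ℝ) ≤ d := by exact_mod_cast hd
    linarith
  set K : ℝ := 12 * 4 ^ d with hK
  have hK0 : 0 < K := by positivity
  have hK1 : 1 ≤ K := by
    rw [hK]
    have : (1 : ℝ) ≤ 4 ^ d := one_le_pow₀ (by norm_num)
    linarith
  refine ⟨K ^ (-(2 / ((d : ℝ) - 1))) / 4, C, by positivity, hC, fun n hn => ⟨hlo n hn, ?_⟩⟩
  have hn0 : (0 : ℝ) < n := by
    have : 0 < n := by omega
    exact_mod_cast this
  have hn1 : (1 : ℝ) ≤ n := by
    have : 1 ≤ n := by omega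
    exact_mod_cast this
  set r : ℝ := (K * n) ^ (-(1 / ((d : ℝ) - 1))) with hr
  have hr0 : 0 < r := by positivity
  have hr1 : r ≤ 1 := by
    apply Real.rpow_le_one_of_one_le_of_nonpos
    · nlinarith
    · have : 0 ≤ 1 / ((d : ℝ) - 1) := by positivity
      linarith
  have hrd : r ^ (d - 1) = (K * n)⁻¹ := by
    rw [hr, ← Real.rpow_natCast, ← Real.rpow_mul (by positivity)]
    have : ((d - 1 : ℕ) : ℝ) = (d : ℝ) - 1 := by
      rw [Nat.cast_sub (by omega)]
      simp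
    rw [this]
    have e : -(1 / ((d : ℝ) - 1)) * ((d : ℝ) - 1) = -1 := by
      field_simp
    rw [e, Real.rpow_neg_one]
  have hr2 : r ^ 2 = K ^ (-(2 / ((d : ℝ) - 1))) * (n : ℝ) ^ (-(2 / ((d : ℝ) - 1))) := by
    rw [hr, ← Real.rpow_natCast, ← Real.rpow_mul (by positivity),
      ← Real.mul_rpow (by positivity) (by positivity)]
    congr 1
    push_cast
    ring
  have hcond : (n : ℝ) * (3 * 4 ^ d * r ^ (d - 1)) ≤ 1 / 4 := by
    rw [hrd, hK]
    apply le_of_eq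
    field_simp
    norm_num
  have hX : 0 ≤ (1 - K ^ (-(2 / ((d : ℝ) - 1))) / 4 * (n : ℝ) ^ (-(2 / ((d : ℝ) - 1)))) * β d := by
    apply mul_nonneg _ (β_nonneg d)
    have : r ^ 2 ≤ 1 := pow_le_one₀ hr0.le hr1
    have e : K ^ (-(2 / ((d : ℝ) - 1))) / 4 * (n : ℝ) ^ (-(2 / ((d : ℝ) - 1))) = r ^ 2 / 4 := by
      rw [hr2]; ring
    rw [e]
    linarith
  apply V_le hX
  intro P hP
  have h1 := pUPA d n P r (by omega) hP hr0 hr1 hcond
  have e : 1 - K ^ (-(2 / ((d : ℝ) - 1))) / 4 * (n : ℝ) ^ (-(2 / ((d : ℝ) - 1))) =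
      1 - r ^ 2 / 4 := by
    rw [hr2]; ring
  rw [e]
  exact h1

/-! ### few vertices -/

/-- the normalised square of `V d (d + k)` -/
noncomputable def φ (k d : ℕ) : ℝ :=
  ((d.factorial : ℝ) * V d (d + k)) ^ 2 * 2 ^ d / ((d : ℝ) + k) ^ k

theorem φ_le (k d : ℕ) (hk : 1 ≤ k) (hd : 1 ≤ d) :
    φ k d ≤ Real.exp ((k : ℝ) - 1) / (k * k.factorial) := by
  have hkR : (1 : ℝ) ≤ k := by exact_mod_cast hk
  have hdR : (1 : ℝ) ≤ d := by exact_mod_cast hd
  have hd0 : (0 : ℝ) < d := by linarith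
  set n : ℝ := (d : ℝ) + k with hn
  have hn0 : 0 < n := by linarith
  set R : ℝ := n * ((d + k).choose (d + 1)) * ((n - 1) / d) ^ d with hR
  have hR0 : 0 ≤ R := by
    have : 0 ≤ n - 1 := by linarith
    positivity
  have h1 : ((d.factorial : ℝ) ^ 2 * 2 ^ d * (k : ℝ) ^ 2) * V d (d + k) ^ 2 ≤ R := by
    apply V_sq_le (by positivity) hR0
    intro P hP
    have := pUB d k P hd hk hP
    rw [← hn, ← hR] at this
    calc (d.factorial : ℝ) ^ 2 * 2 ^ d * (k : ℝ) ^ 2 * (volume P).toReal ^ 2 =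
          ((d.factorial : ℝ) * (volume P).toReal) ^ 2 * 2 ^ d * (k : ℝ) ^ 2 := by ring
      _ ≤ R := this
  -- the binomial coefficient
  have hch : ((d + k).choose (d + 1) : ℝ) ≤ n ^ (k - 1) / ((k - 1).factorial : ℝ) := by
    have e : (d + k).choose (d + 1) = (d + k).choose (k - 1) := by
      rw [← Nat.choose_symm (by omega : d + 1 ≤ d + k)]
      congr 1
      omega
    rw [e]
    have := Nat.choose_le_pow_div (α := ℝ) (k - 1) (d + k)
    simpa [hn] using this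
  have hexp : ((n - 1) / d) ^ d ≤ Real.exp ((k : ℝ) - 1) := by
    have e : (n - 1) / d = 1 + ((k : ℝ) - 1) / d := by
      rw [hn]; field_simp; ring
    rw [e]
    have h2 : 1 + ((k : ℝ) - 1) / d ≤ Real.exp (((k : ℝ) - 1) / d) := by
      have := Real.add_one_le_exp (((k : ℝ) - 1) / d)
      linarith
    have h3 : 0 ≤ 1 + ((k : ℝ) - 1) / d := by
      have : 0 ≤ ((k : ℝ) - 1) / d := div_nonneg (by linarith) hd0.le
      linarith
    calc (1 + ((k : ℝ) - 1) / d) ^ d ≤ Real.exp (((k : ℝ) - 1) / d) ^ d := pow_le_pow_left₀ h3 h2 d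
      _ = Real.exp ((k : ℝ) - 1) := by
          rw [← Real.exp_nat_mul]
          congr 1
          field_simp
  have hfac : (k.factorial : ℝ) = k * ((k - 1).factorial : ℝ) := by
    have : k.factorial = k * (k - 1).factorial := (Nat.mul_factorial_pred (by omega)).symm
    rw [this]
    push_cast
    rfl
  have hnk : n ^ k = n * n ^ (k - 1) := by
    have : k = (k - 1) + 1 := by omega
    conv_lhs => rw [this, pow_succ]
    ring
  have hf0 : (0 : ℝ) < ((k - 1).factorial : ℝ) := by exact_mod_cast Nat.factorial_pos _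
  unfold φ
  rw [← hn, div_le_div_iff₀ (by positivity) (by positivity)]
  have h4 : R ≤ n * (n ^ (k - 1) / ((k - 1).factorial : ℝ)) * Real.exp ((k : ℝ) - 1) := by
    rw [hR]
    have : 0 ≤ ((n - 1) / d) ^ d := by
      have : 0 ≤ n - 1 := by linarith
      positivity
    gcongr
  have h5 := h1.trans h4
  have h6 : ((d.factorial : ℝ) * V d (d + k)) ^ 2 * 2 ^ d * (k * k.factorial) =
      ((d.factorial : ℝ) ^ 2 * 2 ^ d * (k : ℝ) ^ 2 * V d (d + k) ^ 2) * ((k - 1).factorial : ℝ) := by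
    rw [hfac]; ring
  rw [h6]
  calc ((d.factorial : ℝ) ^ 2 * 2 ^ d * (k : ℝ) ^ 2 * V d (d + k) ^ 2) * ((k - 1).factorial : ℝ)
      ≤ (n * (n ^ (k - 1) / ((k - 1).factorial : ℝ)) * Real.exp ((k : ℝ) - 1)) *
        ((k - 1).factorial : ℝ) := mul_le_mul_of_nonneg_right h5 hf0.le
    _ = Real.exp ((k : ℝ) - 1) * n ^ k := by
        rw [hnk]
        field_simp

theorem φ_nonneg (k d : ℕ) : 0 ≤ φ k d := by
  unfold φ
  have := V_nonneg d (d + k)
  positivity

/-- the blow-up inequality -/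
theorem blow (a N k m r : ℕ) (c : Fin N → E a) (hk : 1 ≤ k) (hN : N = a + k) (hm : 2 ≤ m)
    (hr : r ≤ N) (hdist : ∀ i j, dist (c i) (c j) ≤ 1)
    (hint : (interior (convexHull ℝ (range c))).Nonempty) :
    ((m : ℝ) / (m + 1)) ^ N * (((a.factorial : ℝ) *
      (volume (convexHull ℝ (range c))).toReal) ^ 2 * 2 ^ a / (N : ℝ) ^ k) ≤
        φ k (N * m + r - k) := by
  have hN1 : 1 ≤ N := by omega
  have : Nonempty (Fin N) := ⟨⟨0, by omega⟩⟩
  have hmR : (2 : ℝ) ≤ m := by exact_mod_cast hm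
  -- scaling
  set t : ℝ := (√((m : ℝ) + 1))⁻¹ with ht
  have ht0 : 0 < t := by positivity
  have ht2 : t ^ 2 = 1 / ((m : ℝ) + 1) := by
    rw [ht, inv_pow, Real.sq_sqrt (by positivity), one_div]
  set b : Fin N → ℕ := fun i => if (i : ℕ) < r then m else m - 1 with hb
  have hb1 : ∀ i, 1 ≤ b i := by
    intro i
    simp only [hb]
    split_ifs <;> omega
  have hbm : ∀ i, b i + 1 ≤ m + 1 := by
    intro i
    simp only [hb]
    split_ifs <;> omega
  have hbm' : ∀ i, m ≤ b i + 1 := by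
    intro i
    simp only [hb]
    split_ifs <;> omega
  have hsumb : ∑ i, (b i + 1) = N * m + r := by
    have e : ∀ i : Fin N, b i + 1 = m + (if (i : ℕ) < r then 1 else 0) := by
      intro i
      simp only [hb]
      split_ifs <;> omega
    simp_rw [e]
    rw [Finset.sum_add_distrib]
    simp only [Finset.sum_const, Finset.card_univ, Fintype.card_fin, smul_eq_mul]
    congr 1
    rw [Finset.sum_ite, Finset.sum_const_zero, add_zero, Finset.sum_const, smul_eq_mul, mul_one]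
    have : (Finset.univ.filter fun i : Fin N => (i : ℕ) < r).card = r := by
      rw [Fin.card_filter_val_lt]
      omega
    exact this
  have hsum : ∑ i, b i + N = N * m + r := by
    rw [← hsumb, Finset.sum_add_distrib]
    simp
  set D : ℕ := N * m + r - k with hD
  have hkN : k ≤ N := by omega
  have hNm : N * 2 ≤ N * m := Nat.mul_le_mul_left _ hm
  have hD1 : D = a + ∑ i, b i := by omega
  have hD2 : D + k = ∑ i, (b i + 1) := by rw [hsumb]; omega
  set c' : Fin N → E a := fun i => t • c i with hc'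
  have hrange : range c' = t • range c := by
    rw [hc', ← image_smul, ← range_comp]
    rfl
  have hhull : convexHull ℝ (range c') = t • convexHull ℝ (range c) := by
    rw [hrange, convexHull_smul]
  have hvol : (volume (convexHull ℝ (range c'))).toReal =
      t ^ a * (volume (convexHull ℝ (range c))).toReal := by
    rw [hhull, Measure.addHaar_smul, ENNReal.toReal_mul, ENNReal.toReal_ofReal (by positivity),
      abs_of_nonneg (by positivity)]
    simp
  have hint' : (interior (convexHull ℝ (range c'))).Nonempty := by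
    rw [hhull, interior_smul₀ ht0.ne']
    exact hint.smul_set
  have hdist' : ∀ i j, i ≠ j → dist (c' i) (c' j) ^ 2 ≤
      1 / (2 * ((b i : ℝ) + 1)) + 1 / (2 * ((b j : ℝ) + 1)) := by
    intro i j _
    have e1 : dist (c' i) (c' j) = t * dist (c i) (c j) := by
      rw [hc', dist_smul₀, Real.norm_of_nonneg ht0.le]
    rw [e1, mul_pow, ht2]
    have h2 : dist (c i) (c j) ^ 2 ≤ 1 := pow_le_one₀ dist_nonneg (hdist i j)
    have h3 : ∀ i, 1 / (2 * ((m : ℝ) + 1)) ≤ 1 / (2 * ((b i : ℝ) + 1)) := by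
      intro i
      have : ((b i : ℝ) + 1) ≤ (m : ℝ) + 1 := by exact_mod_cast hbm i
      apply one_div_le_one_div_of_le (by positivity)
      linarith
    have h4 : 1 / ((m : ℝ) + 1) * dist (c i) (c j) ^ 2 ≤ 1 / ((m : ℝ) + 1) :=
      mul_le_of_le_one_right (by positivity) h2
    have h5 : 1 / ((m : ℝ) + 1) = 1 / (2 * ((m : ℝ) + 1)) + 1 / (2 * ((m : ℝ) + 1)) := by
      field_simp
      norm_num
    have := h3 i
    have := h3 j
    linarith
  obtain ⟨P, hP, hPv⟩ := pBL (Fin N) a b c' D (D + k) hb1 hdist' hint' hD1 hD2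
  have hV := le_V hP
  rw [hvol] at hPv
  set A : ℝ := ((a.factorial : ℝ) * (volume (convexHull ℝ (range c))).toReal) ^ 2 * 2 ^ a with hA
  have hA0 : 0 ≤ A := by positivity
  have hPv' : ((D.factorial : ℝ) * (volume P).toReal) ^ 2 * 2 ^ D =
      (1 / ((m : ℝ) + 1)) ^ a * A * ∏ i, ((b i : ℝ) + 1) := by
    rw [hPv, hA, ← ht2]
    ring
  have hprod : (m : ℝ) ^ N ≤ ∏ i, ((b i : ℝ) + 1) := by
    calc (m : ℝ) ^ N = ∏ _i : Fin N, (m : ℝ) := by simp
      _ ≤ ∏ i, ((b i : ℝ) + 1) := Finset.prod_le_prod (fun i _ => by positivity)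
          (fun i _ => by exact_mod_cast hbm' i)
  have hlow : (1 / ((m : ℝ) + 1)) ^ a * A * (m : ℝ) ^ N ≤ ((D.factorial : ℝ) * V D (D + k)) ^ 2 * 2 ^ D := by
    calc (1 / ((m : ℝ) + 1)) ^ a * A * (m : ℝ) ^ N
        ≤ (1 / ((m : ℝ) + 1)) ^ a * A * ∏ i, ((b i : ℝ) + 1) :=
          mul_le_mul_of_nonneg_left hprod (by positivity)
      _ = ((D.factorial : ℝ) * (volume P).toReal) ^ 2 * 2 ^ D := hPv'.symm
      _ ≤ ((D.factorial : ℝ) * V D (D + k)) ^ 2 * 2 ^ D := by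
          gcongr
  have hDk : (D : ℝ) + k = N * m + r := by
    have : D + k = N * m + r := by omega
    exact_mod_cast this
  have hN0 : (0 : ℝ) < N := by exact_mod_cast (by omega : 0 < N)
  have hDk0 : 0 < (D : ℝ) + k := by
    rw [hDk]; positivity
  have hle : (D : ℝ) + k ≤ N * (m + 1) := by
    rw [hDk]
    have : (r : ℝ) ≤ N := by exact_mod_cast hr
    linarith
  unfold φ
  rw [le_div_iff₀ (by positivity)]
  refine le_trans ?_ hlow
  have e1 : ((m : ℝ) / (m + 1)) ^ N = (m : ℝ) ^ N * ((1 / ((m : ℝ) + 1)) ^ a * (1 / ((m : ℝ) + 1)) ^ k) := by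
    rw [← pow_add, ← hN, div_pow, one_div, inv_pow]
    field_simp
  have e2 : (1 / ((m : ℝ) + 1)) ^ k * (1 / (N : ℝ) ^ k) * ((D : ℝ) + k) ^ k ≤ 1 := by
    calc (1 / ((m : ℝ) + 1)) ^ k * (1 / (N : ℝ) ^ k) * ((D : ℝ) + k) ^ k
        ≤ (1 / ((m : ℝ) + 1)) ^ k * (1 / (N : ℝ) ^ k) * (N * (m + 1)) ^ k := by
          gcongr
      _ = 1 := by
          rw [mul_pow, one_div_pow]
          field_simp
  calc ((m : ℝ) / (m + 1)) ^ N * (A / (N : ℝ) ^ k) * ((D : ℝ) + k) ^ k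
      = ((1 / ((m : ℝ) + 1)) ^ a * A * (m : ℝ) ^ N) *
          ((1 / ((m : ℝ) + 1)) ^ k * (1 / (N : ℝ) ^ k) * ((D : ℝ) + k) ^ k) := by
        rw [e1]; ring
    _ ≤ ((1 / ((m : ℝ) + 1)) ^ a * A * (m : ℝ) ^ N) * 1 :=
        mul_le_mul_of_nonneg_left e2 (by positivity)
    _ = _ := by ring

end Pool.Agent.Helper86.Poly
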