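import Pool.Agent.Helper86.Poly.Lim

/-! # MP_cd13d2_co : the limit for `n = d + k` -/

set_option autoImplicit false

namespace Pool.Agent.Helper86.Poly

open MeasureTheory Set Filter Topology
open scoped Pointwise

/-- a polytope is the hull of its extreme points, enumerated -/
theorem ext_enum {d n : ℕ} (hn : 1 ≤ n) {P : Set (E d)} (hP : Admissible d n P) :
    ∃ c : Fin n → E d, convexHull ℝ (range c) = P := by
  obtain ⟨hc, hcv, -⟩ := adm_subset hP
  obtain ⟨-, -, hcard, -⟩ := hP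
  have hfin : (P.extremePoints ℝ).Finite := Set.finite_of_ncard_pos (by omega)
  have hKM := closure_convexHull_extremePoints hc hcv
  have hcl : IsClosed (convexHull ℝ (P.extremePoints ℝ)) :=
    (Set.Finite.isCompact_convexHull ℝ hfin).isClosed
  rw [hcl.closure_eq] at hKM
  have hcard' : hfin.toFinset.card = n := by
    rw [← Set.ncard_eq_toFinset_card _ hfin]
    exact hcard
  set e := hfin.toFinset.equivFinOfCardEq hcard' with he
  refine ⟨fun i => (e.symm i : E d), ?_⟩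
  have hr : range (fun i => (e.symm i : E d)) = P.extremePoints ℝ := by
    ext x
    constructor
    · rintro ⟨i, rfl⟩
      exact hfin.mem_toFinset.1 (e.symm i).2
    · intro hx
      refine ⟨e ⟨x, hfin.mem_toFinset.2 hx⟩, ?_⟩
      simp
  rw [hr, hKM]

theorem blow_V (k d m r : ℕ) (hk : 1 ≤ k) (hm : 2 ≤ m) (hr : r ≤ d + k) :
    ((m : ℝ) / (m + 1)) ^ (d + k) * φ k d ≤ φ k ((d + k) * m + r - k) := by
  have hmR : (2 : ℝ) ≤ m := by exact_mod_cast hm
  have hkR : (1 : ℝ) ≤ k := by exact_mod_cast hk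
  have hn0 : (0 : ℝ) < (d : ℝ) + k := by positivity
  have h1 : (((m : ℝ) / (m + 1)) ^ (d + k) * ((d.factorial : ℝ) ^ 2 * 2 ^ d / ((d : ℝ) + k) ^ k)) *
      V d (d + k) ^ 2 ≤ φ k ((d + k) * m + r - k) := by
    apply V_sq_le (by positivity) (φ_nonneg _ _)
    intro P hP
    obtain ⟨c, hc⟩ := ext_enum (by omega) hP
    obtain ⟨-, -, hdist⟩ := adm_subset hP
    have h2 := blow d (d + k) k m r c hk rfl hm hr (fun i j => by
      apply hdist
      · rw [← hc]; exact subset_convexHull ℝ _ ⟨i, rfl⟩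
      · rw [← hc]; exact subset_convexHull ℝ _ ⟨j, rfl⟩) (by rw [hc]; exact hP.2.1)
    rw [hc] at h2
    refine le_trans (le_of_eq ?_) h2
    push_cast
    ring
  refine le_trans (le_of_eq ?_) h1
  unfold φ
  ring

theorem vol_E0 (s : Set (E 0)) (hs : s.Nonempty) : (volume s).toReal = 1 := by
  have h1 := (EuclideanSpace.basisFun (Fin 0) ℝ).volume_parallelepiped
  have h2 : s = parallelepiped (EuclideanSpace.basisFun (Fin 0) ℝ) := by
    obtain ⟨x, hx⟩ := hs
    have h3 : (parallelepiped (EuclideanSpace.basisFun (Fin 0) ℝ)).Nonempty := by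
      by_contra hcon
      rw [Set.not_nonempty_iff_eq_empty] at hcon
      rw [hcon, measure_empty] at h1
      exact zero_ne_one h1
    obtain ⟨y, hy⟩ := h3
    ext z
    constructor
    · intro _
      rw [Subsingleton.elim z y]
      exact hy
    · intro _
      rw [Subsingleton.elim z x]
      exact hx
  rw [h2, h1]
  rfl

theorem blow_0 (k m r : ℕ) (hk : 1 ≤ k) (hm : 2 ≤ m) (hr : r ≤ k) :
    ((m : ℝ) / (m + 1)) ^ k * (1 / (k : ℝ) ^ k) ≤ φ k (k * m + r - k) := by
  have hne : (range (fun _ : Fin k => (0 : E 0))).Nonempty := ⟨0, ⟨⟨0, by omega⟩, rfl⟩⟩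
  have h1 := blow 0 k k m r (fun _ => 0) hk (by omega) hm hr (fun i j => by simp) (by
    have : convexHull ℝ (range (fun _ : Fin k => (0 : E 0))) = univ := by
      apply Set.eq_univ_of_forall
      intro z
      rw [Subsingleton.elim z 0]
      exact subset_convexHull ℝ _ ⟨⟨0, by omega⟩, rfl⟩
    rw [this, interior_univ]
    exact univ_nonempty)
  rw [vol_E0 _ hne.convexHull] at h1
  simpa using h1

theorem tends_ratio (N : ℕ) : Tendsto (fun m : ℕ => ((m : ℝ) / (m + 1)) ^ N) atTop (𝓝 1) := by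
  have h1 : Tendsto (fun m : ℕ => ((m : ℝ) / (m + 1))) atTop (𝓝 1) :=
    tendsto_natCast_div_add_atTop (1 : ℝ)
  have h2 := h1.pow N
  rwa [one_pow] at h2

/-- the limit theorem -/
theorem few (k : ℕ) (hk : 1 ≤ k) : ∃ L : ℝ, Tendsto (fun d => φ k d) atTop (𝓝 L) ∧
    (∀ d, 1 ≤ d → φ k d ≤ L) ∧ 1 / (k : ℝ) ^ k ≤ L ∧
    L ≤ Real.exp ((k : ℝ) - 1) / (k * k.factorial) := by
  set S : Set ℝ := {x | ∃ d, 1 ≤ d ∧ x = φ k d} with hS
  have hSb : BddAbove S := by
    refine ⟨Real.exp ((k : ℝ) - 1) / (k * k.factorial), ?_⟩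
    rintro x ⟨d, hd, rfl⟩
    exact φ_le k d hk hd
  have hSn : S.Nonempty := ⟨φ k 1, 1, le_rfl, rfl⟩
  have hle : ∀ d, 1 ≤ d → φ k d ≤ sSup S := fun d hd => le_csSup hSb ⟨d, hd, rfl⟩
  refine ⟨sSup S, ?_, hle, ?_, ?_⟩
  · rw [tendsto_order]
    constructor
    · intro y hy
      obtain ⟨x, ⟨d, hd, rfl⟩, hyx⟩ := exists_lt_of_lt_csSup hSn hy
      set N := d + k with hN
      have hN0 : 0 < N := by omega
      have hmt : Tendsto (fun D : ℕ => (D + k) / N) atTop atTop :=
        (Nat.tendsto_div_const_atTop hN0.ne').comp (tendsto_add_atTop_nat k)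
      have h1 : Tendsto (fun D : ℕ => ((((D + k) / N : ℕ) : ℝ) / (((D + k) / N : ℕ) + 1)) ^ N *
          φ k d) atTop (𝓝 (1 * φ k d)) :=
        ((tends_ratio N).comp hmt).mul_const _
      rw [one_mul] at h1
      have h2 := h1.eventually (lt_mem_nhds hyx)
      filter_upwards [h2, hmt.eventually_ge_atTop 2] with D hD1 hD2
      have h3 := blow_V k d ((D + k) / N) ((D + k) % N) hk hD2 (Nat.mod_lt _ hN0).le
      have h4 : (d + k) * ((D + k) / N) + (D + k) % N - k = D := by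
        rw [← hN, Nat.div_add_mod]
        omega
      rw [h4] at h3
      exact lt_of_lt_of_le hD1 h3
    · intro y hy
      filter_upwards [eventually_ge_atTop 1] with D hD
      exact lt_of_le_of_lt (hle D hD) hy
  · have h1 : Tendsto (fun m : ℕ => ((m : ℝ) / (m + 1)) ^ k * (1 / (k : ℝ) ^ k)) atTop
        (𝓝 (1 * (1 / (k : ℝ) ^ k))) := (tends_ratio k).mul_const _
    rw [one_mul] at h1
    refine le_of_tendsto h1 ?_
    filter_upwards [eventually_ge_atTop 2] with m hm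
    refine (blow_0 k m 0 hk hm (Nat.zero_le _)).trans (hle _ ?_)
    have : k * 2 ≤ k * m := Nat.mul_le_mul_left _ hm
    omega
  · apply csSup_le hSn
    rintro x ⟨d, hd, rfl⟩
    exact φ_le k d hk hd

/-- the pentagon -/
theorem pent_value (k : ℕ) (hk : 3 ≤ k) : 1.491 / (k : ℝ) ^ k ≤ φ k (4 * k) := by
  obtain ⟨p, hp1, hp2, hp0, hpi, hpv⟩ := pPENT
  set t : ℝ := (√3)⁻¹ with ht
  have ht0 : 0 < t := by positivity
  have ht2 : t ^ 2 = 1 / 3 := by
    rw [ht, inv_pow, Real.sq_sqrt (by norm_num), one_div]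
  set c : Fin 5 ⊕ Fin (k - 3) → E 2 := Sum.elim (fun i => t • p i) (fun _ => 0) with hc
  set b : Fin 5 ⊕ Fin (k - 3) → ℕ := Sum.elim (fun _ => 2) (fun _ => 4) with hb
  have hhull : convexHull ℝ (range c) = t • convexHull ℝ (range p) := by
    have h1 : convexHull ℝ (range (fun i => t • p i)) = t • convexHull ℝ (range p) := by
      have h2 : range (fun i => t • p i) = t • range p := by
        rw [← image_smul, ← range_comp]
        rfl
      rw [h2, convexHull_smul]
    rw [← h1]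
    apply Subset.antisymm
    · apply convexHull_min _ (convex_convexHull ℝ _)
      rintro _ ⟨i | i, rfl⟩
      · exact subset_convexHull ℝ _ ⟨i, rfl⟩
      · change (0 : E 2) ∈ _
        rw [h1]
        exact ⟨0, hp0, smul_zero t⟩
    · apply convexHull_mono
      rintro _ ⟨i, rfl⟩
      exact ⟨Sum.inl i, rfl⟩
  have hvol : (volume (convexHull ℝ (range c))).toReal =
      t ^ 2 * (volume (convexHull ℝ (range p))).toReal := by
    rw [hhull, Measure.addHaar_smul, ENNReal.toReal_mul, ENNReal.toReal_ofReal (by positivity),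
      abs_of_nonneg (by positivity)]
    simp
  have hint : (interior (convexHull ℝ (range c))).Nonempty := by
    rw [hhull, interior_smul₀ ht0.ne']
    exact hpi.smul_set
  have hn0 : ∀ i, dist (t • p i) 0 ^ 2 ≤ 0.1 := by
    intro i
    rw [dist_zero_right, norm_smul, Real.norm_of_nonneg ht0.le, mul_pow, ht2]
    have := hp2 i
    linarith
  have hdist : ∀ i j, i ≠ j → dist (c i) (c j) ^ 2 ≤
      1 / (2 * ((b i : ℝ) + 1)) + 1 / (2 * ((b j : ℝ) + 1)) := by
    rintro (i | i) (j | j) _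
    · simp only [hc, hb, Sum.elim_inl]
      rw [dist_smul₀, Real.norm_of_nonneg ht0.le, mul_pow, ht2]
      have : dist (p i) (p j) ^ 2 ≤ 1 := pow_le_one₀ dist_nonneg (hp1 i j)
      push_cast
      linarith
    · simp only [hc, hb, Sum.elim_inl, Sum.elim_inr]
      have := hn0 i
      push_cast
      linarith
    · simp only [hc, hb, Sum.elim_inl, Sum.elim_inr]
      have := hn0 j
      rw [dist_comm]
      push_cast
      linarith
    · simp only [hc, hb, Sum.elim_inr]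
      rw [dist_self]
      norm_num
  have hb1 : ∀ i, 1 ≤ b i := by
    rintro (i | i) <;> simp [hb]
  have hsum1 : 4 * k = 2 + ∑ i, b i := by
    rw [Fintype.sum_sum_type]
    simp only [hb, Sum.elim_inl, Sum.elim_inr, Finset.sum_const, Finset.card_univ,
      Fintype.card_fin, smul_eq_mul]
    omega
  have hsum2 : 4 * k + k = ∑ i, (b i + 1) := by
    rw [Fintype.sum_sum_type]
    simp only [hb, Sum.elim_inl, Sum.elim_inr, Finset.sum_const, Finset.card_univ,
      Fintype.card_fin, smul_eq_mul]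
    omega
  obtain ⟨P, hP, hPv⟩ := pBL (Fin 5 ⊕ Fin (k - 3)) 2 b c (4 * k) (4 * k + k) hb1 hdist hint
    hsum1 hsum2
  have hV := le_V hP
  have hprod : ∏ i, ((b i : ℝ) + 1) = 3 ^ 5 * 5 ^ (k - 3) := by
    rw [Fintype.prod_sum_type]
    simp only [hb, Sum.elim_inl, Sum.elim_inr, Finset.prod_const, Finset.card_univ,
      Fintype.card_fin]
    norm_num
  rw [hvol, hprod, ht2] at hPv
  set v := (volume (convexHull ℝ (range p))).toReal with hv
  have hk5 : (5 : ℝ) ^ k = 5 ^ 3 * 5 ^ (k - 3) := by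
    rw [← pow_add]
    congr 1
    omega
  have hlow : 1.491 * (5 : ℝ) ^ k ≤ (((4 * k).factorial : ℝ) * (volume P).toReal) ^ 2 *
      2 ^ (4 * k) := by
    rw [hPv, hk5]
    have h5 : (0 : ℝ) < 5 ^ (k - 3) := by positivity
    have hv2 : (0.657 : ℝ) ^ 2 ≤ v ^ 2 := pow_le_pow_left₀ (by norm_num) hpv 2
    have e : (((2 : ℕ).factorial : ℝ) * (1 / 3 * v)) ^ 2 * 2 ^ 2 * (3 ^ 5 * 5 ^ (k - 3)) =
        (432 * v ^ 2) * 5 ^ (k - 3) := by
      rw [show ((2 : ℕ).factorial : ℝ) = 2 by norm_num [Nat.factorial]]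
      ring
    rw [e]
    calc 1.491 * (5 ^ 3 * 5 ^ (k - 3)) = (1.491 * 5 ^ 3) * (5 : ℝ) ^ (k - 3) := by ring
      _ ≤ (432 * v ^ 2) * 5 ^ (k - 3) := by
          apply mul_le_mul_of_nonneg_right _ h5.le
          nlinarith
  have hkR : (3 : ℝ) ≤ k := by exact_mod_cast hk
  unfold φ
  rw [div_le_div_iff₀ (by positivity) (by positivity)]
  have h6 : ((4 * k : ℕ) : ℝ) + k = 5 * k := by push_cast; ring
  rw [h6, mul_pow]
  have hVP : (((4 * k).factorial : ℝ) * (volume P).toReal) ^ 2 * 2 ^ (4 * k) ≤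
      (((4 * k).factorial : ℝ) * V (4 * k) (4 * k + k)) ^ 2 * 2 ^ (4 * k) := by
    gcongr
  calc 1.491 * (5 ^ k * (k : ℝ) ^ k) = (1.491 * (5 : ℝ) ^ k) * (k : ℝ) ^ k := by ring
    _ ≤ ((((4 * k).factorial : ℝ) * V (4 * k) (4 * k + k)) ^ 2 * 2 ^ (4 * k)) * (k : ℝ) ^ k :=
        mul_le_mul_of_nonneg_right (hlow.trans hVP) (by positivity)

/-- the volume beats all direct sums of simplices for large dimension -/
theorem pent_gain (k : ℕ) (hk : 3 ≤ k) : ∃ d0 : ℕ, ∀ d, d0 ≤ d →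
    1.49 * (((d : ℝ) + k) / k) ^ k ≤ ((d.factorial : ℝ) * V d (d + k)) ^ 2 * 2 ^ d := by
  obtain ⟨L, h1, h2, -, -⟩ := few k (by omega)
  have hkR : (3 : ℝ) ≤ k := by exact_mod_cast hk
  have hL : 1.49 / (k : ℝ) ^ k < L := by
    refine lt_of_lt_of_le ?_ ((pent_value k hk).trans (h2 _ (by omega)))
    apply div_lt_div_of_pos_right (by norm_num) (by positivity)
  have h3 := h1.eventually (lt_mem_nhds hL)
  rw [eventually_atTop] at h3
  obtain ⟨d0, hd0⟩ := h3
  refine ⟨d0, fun d hd => ?_⟩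
  have h4 := (hd0 d hd).le
  unfold φ at h4
  rw [div_le_div_iff₀ (by positivity) (by positivity)] at h4
  rw [div_pow, mul_div_assoc', div_le_iff₀ (by positivity)]
  exact h4

/-- direct sums of regular simplices -/
theorem ds_le {d k : ℕ} {b : Fin k → ℕ} {p : (Σ i, Fin (b i + 1)) → E d} (hk : 1 ≤ k)
    (hd : d = ∑ i, b i) (h1 : ∀ i (α β : Fin (b i + 1)), α ≠ β → dist (p ⟨i, α⟩) (p ⟨i, β⟩) = 1)
    (h2 : ∀ i, ∑ α, p ⟨i, α⟩ = 0)
    (h3 : ∀ i j, i ≠ j → ∀ (α : Fin (b i + 1)) (β : Fin (b j + 1)),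
      inner ℝ (p ⟨i, α⟩) (p ⟨j, β⟩) = 0) :
    ((d.factorial : ℝ) * (volume (convexHull ℝ (range p))).toReal) ^ 2 * 2 ^ d ≤
      (((d : ℝ) + k) / k) ^ k := by
  rw [pDS hk hd h1 h2 h3]
  have hk0 : (0 : ℝ) < k := by exact_mod_cast hk
  have hk1 : k ≠ 0 := by omega
  have h4 := Real.geom_mean_le_arith_mean (Finset.univ : Finset (Fin k)) (fun _ => (1 : ℝ))
    (fun i => (b i : ℝ) + 1) (fun _ _ => zero_le_one) (by simp; omega) (fun i _ => by positivity)
  simp only [Real.rpow_one, one_mul, Finset.sum_const, Finset.card_univ, Fintype.card_fin,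
    nsmul_eq_mul, mul_one] at h4
  have h5 : ∑ i, ((b i : ℝ) + 1) = (d : ℝ) + k := by
    rw [Finset.sum_add_distrib, hd]
    push_cast
    simp
  rw [h5] at h4
  have h6 : 0 ≤ ∏ i, ((b i : ℝ) + 1) := Finset.prod_nonneg fun i _ => by positivity
  calc ∏ i, ((b i : ℝ) + 1) = ((∏ i, ((b i : ℝ) + 1)) ^ ((k : ℝ)⁻¹)) ^ k :=
        (Real.rpow_inv_natCast_pow h6 hk1).symm
    _ ≤ (((d : ℝ) + k) / k) ^ k := pow_le_pow_left₀ (Real.rpow_nonneg h6 _) h4 k

end Pool.Agent.Helper86.Poly
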